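import Pool.Agent.Work.MP_216d61_lc.Defs
import Pool.Agent.Work.MP_216d61_lc_helper79.BWDefs
import Pool.Agent.Work.MP_216d61_lc_helper79.BW
import Pool.Agent.Work.MP_216d61_lc_full.ALL

/-!
# The set of limiting densities is decidable, and its rational members are the rational limiting
densities of classes of bounded treewidth
-/

set_option autoImplicit false

namespace Pool.Agent.Results.MP_216d61_lc.Decidable

open Pool.Agent.Work.MP_216d61_lc

/-- (1) Membership of a non-negative rational in the set of limiting densities of proper
minor-closed classes is decidable. (2) A non-negative rational is a limiting density if and only if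
it is the limiting density of a minor-closed class of bounded treewidth. -/
theorem result :
    (ComputablePred fun p : ℕ × ℕ => IsLimitingDensity ((p.1 : ℝ) / ((p.2 : ℝ) + 1))) ∧
    (∀ a b : ℕ, IsLimitingDensity ((a : ℝ) / ((b : ℝ) + 1)) ↔
      IsBoundedTreewidthDensity ((a : ℝ) / ((b : ℝ) + 1))) := by
  have key : ∀ a b : ℕ, IsLimitingDensity ((a : ℝ) / ((b : ℝ) + 1)) →
      IsBoundedTreewidthDensity ((a : ℝ) / ((b : ℝ) + 1)) := fun a b h =>
    (isBTD_iff_BT a b).2 (bt_of_isDen_all a b h)
  exact ⟨computable_of_isBTD key, fun a b => ⟨key a b, isLimitingDensity_of_isBTD⟩⟩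

end Pool.Agent.Results.MP_216d61_lc.Decidable
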